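import Pool.Agent.helper19.MX.SpecD

set_option autoImplicit false
set_option linter.unusedVariables false

namespace MX

open Pool.Agent.helper53.AU AN
open scoped Classical Topology IntermediateField
open Finset (range powerset Icc)

noncomputable section

theorem AFE_pow (k : Type) [Field k] (i : ℕ) : (mono 1 1 : LS k) ^ i = mono (i : ℤ) 1 := by
  induction i with
  | zero =>
    rw [pow_zero]
    ext n
    rw [cf_one, cf_mono]
    rfl
  | succ i ih => rw [pow_succ, ih, mono_mul_mono, mul_one, Nat.cast_succ]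

theorem AFE_tr (k : Type) [Field k] : Transcendental k (mono 1 1 : LS k) := by
  rintro ⟨p, hp, h0⟩
  apply hp
  ext n
  rw [Polynomial.coeff_zero]
  by_cases hn : n ≤ p.natDegree
  · rw [Polynomial.aeval_eq_sum_range] at h0
    have h1 := congrArg (fun f : LS k => cf f (n : ℤ)) h0
    simp only [cf_sum, cf_smul, cf_zero, AFE_pow, cf_mono] at h1
    rw [Finset.sum_eq_single n] at h1
    · rw [if_pos rfl, mul_one] at h1
      exact h1
    · intro b _ hb
      rw [if_neg, mul_zero]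
      intro h
      exact hb (by exact_mod_cast h.symm)
    · intro h
      exact absurd (Finset.mem_range.2 (Nat.lt_succ_of_le hn)) h
  · exact Polynomial.coeff_eq_zero_of_natDegree_lt (not_le.1 hn)

theorem AFE_tr2 (k : Type) [Field k] (x₀ : k) :
    Transcendental k (LS.C x₀ + mono 1 1 : LS k) := by
  intro h
  apply AFE_tr k
  have h2 : IsAlgebraic k (LS.C x₀ : LS k) := isAlgebraic_algebraMap x₀
  have h3 := h.sub h2
  have h4 : (LS.C x₀ + mono 1 1 : LS k) - LS.C x₀ = mono 1 1 := by ring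
  rwa [h4] at h3

theorem AFE (hPSY : PSY_stmt) (hUNI : UNI_stmt) (hLSP : LSP_stmt) : AFE_stmt := by
  intro k F _ _ _ _ hperf x r y f hAS x₀ y₀ hy₀
  have hY : ∀ j, ∃ Y : LS k, j < r → ((∀ n < 0, cf Y n = 0) ∧ cf Y 0 = y₀ j ∧
      Y ^ 2 + Y = Polynomial.aeval (LS.C x₀ + mono 1 1) (f j)) := by
    intro j
    by_cases hj : j < r
    · obtain ⟨Y, hY⟩ := hPSY k (f j) x₀ (y₀ j) (hy₀ j hj)
      exact ⟨Y, fun _ => hY⟩
    · exact ⟨0, fun h => absurd h hj⟩
  choose YY hYY using hY
  obtain ⟨ψ, hψx, hψy⟩ := hUNI k F (LS k) hperf x r y f hAS (LS.C x₀ + mono 1 1) YY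
    (AFE_tr2 k x₀) (fun j hj => (hYY j hj).2.2)
  obtain ⟨P, hP1, hP⟩ := hLSP k F ψ x x₀ hψx
  refine ⟨P, hP1, ?_, ?_⟩
  · have h1 := hP x (by
      intro n hn
      rw [hψx, cf_add, cf_C, cf_mono, if_neg (by omega), if_neg (by omega), add_zero])
    have h2 : cf (ψ x) 0 = x₀ := by
      rw [hψx, cf_add, cf_C, cf_mono, if_pos rfl, if_neg (by omega), add_zero]
    rwa [h2] at h1
  · intro j hj
    obtain ⟨h1, h2, -⟩ := hYY j hj
    have h3 := hP (y j) (by rw [hψy j hj]; exact h1)
    rwa [hψy j hj, h2] at h3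

end

end MX
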