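import Pool.Agent.helper19.MX.SpecA

set_option autoImplicit false
set_option linter.unusedVariables false

namespace MX

open Pool.Agent.helper53.AU AN
open scoped Classical Topology
open Finset (range powerset Icc)

noncomputable section

theorem GNP (hADD : ADD_stmt) (hCFR : CFR_stmt) (hCNE : CNE_stmt) (hCNG : CNG_stmt)
    (hIDA : IDA_stmt) (hHAD : HAD_stmt) : GNP_stmt := by
  intro L _ _ _ _ _ hHH θ h a hh hlev hcert
  set b : ℕ → L := fun i => bb h a i ^ 2 with hb
  have hbc : Cert L θ h b := hCFR L θ h (bb h a) hcert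
  have hbh : b h ≠ 0 := hCNE L θ h b hbc
  -- small elements are of the form `y ^ 2 + y`
  have N1 : {η : L | ∃ y : L, y ^ 2 + y = η} ∈ 𝓝 (0 : L) := by
    have h1 := hHAD L hHH 1 (fun _ => 1) 0 0 (by simp) one_ne_zero Set.univ Filter.univ_mem
    have hc : Filter.Tendsto (fun η : L => ((fun _ => 1 : ℕ → L), η)) (𝓝 0)
        (𝓝 ((fun _ => 1 : ℕ → L), (0 : L))) :=
      (continuous_const.prodMk continuous_id).tendsto 0
    filter_upwards [hc.eventually h1] with η hη
    obtain ⟨y, _, hy⟩ := hη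
    refine ⟨y, ?_⟩
    rw [← hy, Finset.sum_range_succ, Finset.sum_range_one]
    show y ^ 2 + y = 1 * y ^ (2 ^ 0) + 1 * y ^ (2 ^ 1)
    rw [pow_zero, pow_one, pow_one]
    ring
  -- continuity of the form
  have hfb : Continuous (fun x : L => fb h b x) := by
    unfold fb
    exact continuous_finsetSum _ fun i _ =>
      (continuous_const.mul (continuous_id.pow _)).mul (continuous_id.pow _)
  have hfb0 : fb h b 0 = 0 := by
    unfold fb
    apply Finset.sum_eq_zero
    intro i _
    have h1 : (2 : ℕ) ^ h ≠ 0 := by positivity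
    rw [zero_pow h1]
    ring
  have N2 : {β : L | ∃ y : L, y ^ 2 + y = fb h b β} ∈ 𝓝 (0 : L) := by
    have h1 : Filter.Tendsto (fun x : L => fb h b x) (𝓝 0) (𝓝 0) := by
      have h2 := hfb.tendsto 0
      rwa [hfb0] at h2
    exact h1 N1
  -- small elements are values of `PP h b` at small elements
  obtain ⟨-, hPP⟩ := hADD L h hh b
  set c : ℕ → L := fun j => if j < h then b (h - j) else if j = h then 0 else
    b (j - h) ^ (2 ^ (j - h)) with hc
  have hc0 : c 0 ≠ 0 := by
    have : c 0 = b h := by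
      show (if 0 < h then b (h - 0) else if 0 = h then 0 else b (0 - h) ^ (2 ^ (0 - h))) = b h
      rw [if_pos (by omega), Nat.sub_zero]
    rw [this]
    exact hbh
  have h0 : ∑ j ∈ range (2 * h + 1), c j * (0 : L) ^ (2 ^ j) = 0 := by
    apply Finset.sum_eq_zero
    intro j _
    have h1 : (2 : ℕ) ^ j ≠ 0 := by positivity
    rw [zero_pow h1, mul_zero]
  have h1 := hHAD L hHH (2 * h) c 0 0 h0 hc0 _ N2
  have ht : Filter.Tendsto (fun e : L => (c, e ^ (2 ^ (h + 1)))) (𝓝 0) (𝓝 (c, (0 : L))) := by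
    have h2 : Continuous (fun e : L => (c, e ^ (2 ^ (h + 1)))) :=
      continuous_const.prodMk (continuous_id.pow _)
    have h3 := h2.tendsto 0
    have h4 : (0 : L) ^ (2 ^ (h + 1)) = 0 := zero_pow (by positivity)
    rwa [h4] at h3
  have h2 : ∀ᶠ e in 𝓝 (0 : L), ∃ β : L, (∃ y : L, y ^ 2 + y = fb h b β) ∧
      PP h b β = e ^ (2 ^ (h + 1)) := by
    filter_upwards [ht.eventually h1] with e he
    obtain ⟨β, hβ, hβ2⟩ := he
    refine ⟨β, hβ, ?_⟩
    rw [hPP β]
    exact hβ2
  rw [eventually_nhdsWithin_iff]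
  filter_upwards [h2] with e he he0
  have he0' : e ≠ 0 := he0
  obtain ⟨β, ⟨y, hy⟩, hβ⟩ := he
  refine Cert.step h b _ e⁻¹ β y hbc (inv_ne_zero he0') ?_ hy ?_
  · rw [hβ, ← mul_pow, mul_inv_cancel₀ he0', one_pow]
  · intro i hi
    exact hIDA L h hh a e⁻¹ hlev i hi

end

end MX
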